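import Pool.Agent.W784.RR.DefsA

set_option autoImplicit false
open Set Filter Topology Polynomial Metric

namespace Pool.Agent.W174.RR

open Pool.Agent.W784.RR

/-- product of the distances to the other points -/
noncomputable def pr {N : ℕ} (z : Fin N → ℂ) (i : Fin N) (w : ℂ) : ℝ :=
  ∏ j ∈ Finset.univ.erase i, ‖w - z j‖

/-- product over all ordered pairs -/
noncomputable def WW {N : ℕ} (z : Fin N → ℂ) : ℝ := ∏ i, pr z i (z i)

/-- the part independent of the point `i` -/
noncomputable def RRi {N : ℕ} (z : Fin N → ℂ) (i : Fin N) : ℝ :=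
  ∏ k ∈ Finset.univ.erase i, ∏ j ∈ (Finset.univ.erase k).erase i, ‖z k - z j‖

theorem WW_split {N : ℕ} (z : Fin N → ℂ) (i : Fin N) : WW z = pr z i (z i) ^ 2 * RRi z i := by
  unfold WW
  rw [← Finset.mul_prod_erase Finset.univ _ (Finset.mem_univ i), sq, mul_assoc]
  congr 1
  unfold pr RRi
  rw [← Finset.prod_mul_distrib]
  refine Finset.prod_congr rfl fun k hk => ?_
  have hki : i ∈ Finset.univ.erase k := by
    rw [Finset.mem_erase]
    exact ⟨(Finset.ne_of_mem_erase hk).symm, Finset.mem_univ i⟩
  rw [← Finset.mul_prod_erase _ _ hki, norm_sub_rev]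

theorem WW_update {N : ℕ} (z : Fin N → ℂ) (i : Fin N) (w : ℂ) :
    WW (Function.update z i w) = pr z i w ^ 2 * RRi z i := by
  rw [WW_split _ i, Function.update_self]
  congr 1
  · unfold pr
    congr 1
    refine Finset.prod_congr rfl fun j hj => ?_
    rw [Function.update_of_ne (Finset.ne_of_mem_erase hj)]
  · unfold RRi
    refine Finset.prod_congr rfl fun k hk => ?_
    refine Finset.prod_congr rfl fun j hj => ?_
    rw [Function.update_of_ne (Finset.ne_of_mem_erase hk),
      Function.update_of_ne (Finset.ne_of_mem_erase hj)]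

theorem pa2 : PA2 := by
  intro K c hK hc hcheb ρ N hρ hN
  -- `K` is infinite
  have hinf : K.Infinite := by
    intro hfin
    obtain ⟨z, hz, hz2⟩ := hcheb (∏ w ∈ hfin.toFinset, (X - C w)) (monic_prod_X_sub_C _ _)
    have h0 : ∏ w ∈ hfin.toFinset, eval z (X - C w) = 0 :=
      Finset.prod_eq_zero (hfin.mem_toFinset.2 hz) (by simp)
    rw [eval_prod, h0, norm_zero] at hz2
    exact absurd hz2 (not_le.2 (pow_pos hc _))
  -- maximisation
  have hcont : Continuous (fun z : Fin N → ℂ => WW z) := by
    unfold WW pr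
    fun_prop
  have hKc : IsCompact (Set.pi univ fun _ : Fin N => K) := isCompact_univ_pi fun _ => hK
  have e := Set.Infinite.natEmbedding K hinf
  let z0 : Fin N → ℂ := fun i => (e i : ℂ)
  have hz0 : z0 ∈ Set.pi univ fun _ : Fin N => K := fun i _ => (e i).2
  obtain ⟨z, hzK, hmax⟩ := hKc.exists_isMaxOn ⟨z0, hz0⟩ hcont.continuousOn
  have hW0 : 0 < WW z0 := by
    unfold WW pr
    refine Finset.prod_pos fun i _ => Finset.prod_pos fun j hj => ?_
    rw [norm_pos_iff, sub_ne_zero]
    intro h
    have h1 : (e (i : ℕ)) = e (j : ℕ) := Subtype.ext h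
    have h2 := e.injective h1
    exact Finset.ne_of_mem_erase hj (Fin.ext h2.symm)
  have hW : 0 < WW z := lt_of_lt_of_le hW0 (hmax hz0)
  have hnn : ∀ i w, 0 ≤ pr z i w := fun i w => Finset.prod_nonneg fun j _ => norm_nonneg _
  have hRn : ∀ i, 0 ≤ RRi z i := fun i =>
    Finset.prod_nonneg fun k _ => Finset.prod_nonneg fun j _ => norm_nonneg _
  have hppos : ∀ i, 0 < pr z i (z i) := by
    intro i
    refine lt_of_le_of_ne (hnn i _) fun h => ?_
    rw [WW_split z i, ← h] at hW
    simp at hW
  have hRpos : ∀ i, 0 < RRi z i := by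
    intro i
    refine lt_of_le_of_ne (hRn i) fun h => ?_
    rw [WW_split z i, ← h] at hW
    simp at hW
  have hle : ∀ i, ∀ w ∈ K, pr z i w ≤ pr z i (z i) := by
    intro i w hw
    have hmem : Function.update z i w ∈ Set.pi univ fun _ : Fin N => K := by
      intro j _
      by_cases h : j = i
      · subst h; rw [Function.update_self]; exact hw
      · rw [Function.update_of_ne h]; exact hzK j (mem_univ _)
    have h1 : WW (Function.update z i w) ≤ WW z := hmax hmem
    rw [WW_update, WW_split z i] at h1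
    have h2 := le_of_mul_le_mul_right h1 (hRpos i)
    exact (pow_le_pow_iff_left₀ (hnn i w) (hppos i).le two_ne_zero).1 h2
  -- Chebyshev
  have hbig : ∀ i, c ^ (N - 1) ≤ pr z i (z i) := by
    intro i
    obtain ⟨w, hw, hw2⟩ := hcheb (∏ j ∈ Finset.univ.erase i, (X - C (z j)))
      (monic_prod_X_sub_C _ _)
    have hdeg : (∏ j ∈ Finset.univ.erase i, (X - C (z j))).natDegree = N - 1 := by
      rw [natDegree_finset_prod_X_sub_C_eq_card, Finset.card_erase_of_mem (Finset.mem_univ i),
        Finset.card_univ, Fintype.card_fin]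
    rw [hdeg] at hw2
    refine hw2.trans (le_trans (le_of_eq ?_) (hle i w hw))
    unfold pr
    rw [eval_prod, norm_prod]
    simp
  have hzinj : Function.Injective z := by
    intro i j hij
    by_contra hne
    have := hppos i
    unfold pr at this
    rw [Finset.prod_eq_zero (i := j) (Finset.mem_erase.2 ⟨Ne.symm hne, Finset.mem_univ j⟩)
      (by rw [hij, sub_self, norm_zero])] at this
    exact lt_irrefl _ this
  refine ⟨∏ j, (X - C (z j)), monic_prod_X_sub_C _ _, ?_, ?_⟩
  · rw [natDegree_finset_prod_X_sub_C_eq_card, Finset.card_univ, Fintype.card_fin]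
  intro x hx
  by_contra hnot
  have hd : ∀ i, ρ < ‖x - z i‖ := by
    intro i
    by_contra h
    exact hnot (mem_cthickening_of_dist_le x (z i) ρ K (hzK i (mem_univ _))
      (by rw [dist_eq_norm]; exact not_lt.1 h))
  have hN0 : 0 < N := by omega
  haveI : Nonempty (Fin N) := ⟨⟨0, hN0⟩⟩
  have hPx : ∀ i, ‖(∏ j, (X - C (z j))).eval x‖ = ‖x - z i‖ * pr z i x := by
    intro i
    unfold pr
    rw [eval_prod, norm_prod, ← Finset.mul_prod_erase Finset.univ _ (Finset.mem_univ i)]
    simp
  set A := ‖(∏ j, (X - C (z j))).eval x‖ with hA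
  have hApos : 0 < A := by
    rw [hA, eval_prod, norm_prod]
    refine Finset.prod_pos fun j _ => ?_
    simp only [eval_sub, eval_X, eval_C]
    exact hρ.trans (hd j)
  have hpx : ∀ i, pr z i x < A / ρ := by
    intro i
    rw [lt_div_iff₀ hρ, hPx i, mul_comm]
    have : 0 < pr z i x := by
      refine lt_of_le_of_ne (hnn i x) fun h => ?_
      have := hPx i
      rw [← h, mul_zero] at this
      rw [this] at hApos
      exact lt_irrefl _ hApos
    exact mul_lt_mul_of_pos_right (hd i) this
  have hlag := Lagrange.sum_basis (s := (Finset.univ : Finset (Fin N))) (v := z)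
    (hzinj.injOn) Finset.univ_nonempty
  have hlag2 := congrArg (fun P : ℂ[X] => P.eval x) hlag
  simp only [eval_finset_sum, eval_one] at hlag2
  have hterm : ∀ i, ‖(Lagrange.basis Finset.univ z i).eval x‖ = pr z i x / pr z i (z i) := by
    intro i
    unfold Lagrange.basis Lagrange.basisDivisor pr
    rw [eval_prod, norm_prod, ← Finset.prod_div_distrib]
    refine Finset.prod_congr rfl fun j _ => ?_
    simp only [eval_mul, eval_C, eval_sub, eval_X, norm_mul, norm_inv]
    rw [inv_mul_eq_div]
  have h1 : (1:ℝ) ≤ ∑ i : Fin N, pr z i x / pr z i (z i) := by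
    calc (1:ℝ) = ‖∑ i : Fin N, (Lagrange.basis Finset.univ z i).eval x‖ := by
          rw [hlag2, norm_one]
      _ ≤ ∑ i : Fin N, ‖(Lagrange.basis Finset.univ z i).eval x‖ := norm_sum_le _ _
      _ = _ := Finset.sum_congr rfl fun i _ => hterm i
  have hcN : 0 < c ^ (N - 1) := by positivity
  have h2 : ∑ i : Fin N, pr z i x / pr z i (z i) < ∑ _i : Fin N, A / ρ / c ^ (N - 1) := by
    refine Finset.sum_lt_sum_of_nonempty Finset.univ_nonempty fun i _ => ?_
    calc pr z i x / pr z i (z i) ≤ pr z i x / c ^ (N - 1) :=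
          div_le_div_of_nonneg_left (hnn i x) hcN (hbig i)
      _ < A / ρ / c ^ (N - 1) := div_lt_div_of_pos_right (hpx i) hcN
  rw [Finset.sum_const, Finset.card_univ, Fintype.card_fin, nsmul_eq_mul] at h2
  have h3 : (1:ℝ) < N * (A / ρ / c ^ (N - 1)) := lt_of_le_of_lt h1 h2
  have hNR : (0:ℝ) < N := by exact_mod_cast hN0
  have h4 : N * (A / ρ / c ^ (N - 1)) = A * N / (ρ * c ^ (N - 1)) := by
    field_simp
  rw [h4, lt_div_iff₀ (by positivity), one_mul] at h3
  rw [le_div_iff₀ hNR] at hx
  linarith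

end Pool.Agent.W174.RR
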