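import Pool.Agent.W784.RR.DefsA
import Pool.Agent.Helper88.RB.P_lsc_energy

set_option autoImplicit false
open MeasureTheory Set Filter Topology
open scoped ENNReal NNReal

namespace Pool.Agent.W174.RR

open Pool.Agent.W784.RR Pool.Agent.Helper88.RB

theorem map_energy {K : Set ℂ} (hKm : MeasurableSet K) {k : ℂ × ℂ → ℝ≥0∞}
    (hk : Continuous k) (ν : Measure K) [SFinite ν] :
    ∫⁻ x, ∫⁻ y, k (x, y) ∂(ν.map Subtype.val) ∂(ν.map Subtype.val)
      = ∫⁻ p, k ((p.1 : ℂ), (p.2 : ℂ)) ∂(ν.prod ν) := by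
  have hemb : MeasurableEmbedding (Subtype.val : K → ℂ) := MeasurableEmbedding.subtype_coe hKm
  have hkc : Continuous (fun p : K × K => k ((p.1 : ℂ), (p.2 : ℂ))) :=
    hk.comp ((continuous_subtype_val.comp continuous_fst).prodMk
        (continuous_subtype_val.comp continuous_snd))
  rw [hemb.lintegral_map, lintegral_prod _ hkc.measurable.aemeasurable]
  refine lintegral_congr fun x => ?_
  rw [hemb.lintegral_map]

theorem comap_prob {K : Set ℂ} (hKm : MeasurableSet K) {μ : Measure ℂ}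
    (h1 : μ univ = 1) (h2 : μ Kᶜ = 0) :
    IsProbabilityMeasure (μ.comap (Subtype.val : K → ℂ)) ∧
      (μ.comap (Subtype.val : K → ℂ)).map Subtype.val = μ := by
  have hemb : MeasurableEmbedding (Subtype.val : K → ℂ) := MeasurableEmbedding.subtype_coe hKm
  constructor
  · refine ⟨?_⟩
    rw [hemb.comap_apply]
    simp only [Set.image_univ, Subtype.range_coe]
    have := measure_add_measure_compl (μ := μ) hKm
    rw [h1, h2, add_zero] at this
    exact this
  · rw [hemb.map_comap, Subtype.range_coe]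
    refine Measure.restrict_eq_self_of_ae_mem ?_
    rw [ae_iff]
    exact h2

theorem pa4 : PA4 := by
  intro K s t hK hne hs h
  set Q : Set ℂ := Metric.cthickening 1 K with hQ
  have hQc : IsCompact Q := hK.cthickening
  have hcs : CompactSpace Q := isCompact_iff_compactSpace.1 hQc
  have hQm : MeasurableSet Q := hQc.measurableSet
  have hemb : MeasurableEmbedding (Subtype.val : Q → ℂ) := MeasurableEmbedding.subtype_coe hQm
  have hgc0 : Continuous (fun p : ℂ × ℂ => dist p.1 p.2 ^ s) :=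
    continuous_dist.rpow_const fun _ => Or.inr hs.le
  obtain ⟨B, hB⟩ : ∃ B : ℝ, ∀ x ∈ Q, ∀ y ∈ Q, dist x y ^ s ≤ B :=
    ⟨(Metric.diam Q) ^ s, fun x hx y hy => Real.rpow_le_rpow dist_nonneg
      (Metric.dist_le_diam_of_mem hQc.isBounded hx hy) hs.le⟩
  obtain ⟨k, hk⟩ : ∃ k : ℂ × ℂ → ℝ≥0∞, ∀ p, k p = ENNReal.ofReal (B - dist p.1 p.2 ^ s) :=
    ⟨_, fun _ => rfl⟩
  obtain ⟨g, hg⟩ : ∃ g : ℂ × ℂ → ℝ≥0∞, ∀ p, g p = ENNReal.ofReal (dist p.1 p.2 ^ s) :=
    ⟨_, fun _ => rfl⟩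
  have hkc : Continuous k := by
    rw [show k = fun p => ENNReal.ofReal (B - dist p.1 p.2 ^ s) from funext hk]
    exact ENNReal.continuous_ofReal.comp (continuous_const.sub hgc0)
  have hgc : Continuous g := by
    rw [show g = fun p => ENNReal.ofReal (dist p.1 p.2 ^ s) from funext hg]
    exact ENNReal.continuous_ofReal.comp hgc0
  have hpc : Continuous (fun p : Q × Q => ((p.1 : ℂ), (p.2 : ℂ))) :=
    (continuous_subtype_val.comp continuous_fst).prodMk
        (continuous_subtype_val.comp continuous_snd)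
  have hkc2 : Continuous (fun p : Q × Q => k ((p.1 : ℂ), (p.2 : ℂ))) := hkc.comp hpc
  have hgc2 : Continuous (fun p : Q × Q => g ((p.1 : ℂ), (p.2 : ℂ))) := hgc.comp hpc
  have hdc : Continuous (fun x : ℂ => ENNReal.ofReal (Metric.infDist x K)) :=
    ENNReal.continuous_ofReal.comp (Metric.continuous_infDist_pt K)
  have hd : Continuous (fun p : Q × Q => ENNReal.ofReal (Metric.infDist (p.1 : ℂ) K)) :=
    hdc.comp (continuous_subtype_val.comp continuous_fst)
  have hl1 := lsc_energy _ hkc2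
  have hl2 := lsc_energy _ hd
  -- the sum of the two energies
  have hsum : ∀ ν : Measure Q, IsProbabilityMeasure ν →
      (∫⁻ p : Q × Q, k ((p.1 : ℂ), (p.2 : ℂ)) ∂(ν.prod ν)) +
        ∫⁻ p : Q × Q, g ((p.1 : ℂ), (p.2 : ℂ)) ∂(ν.prod ν) = ENNReal.ofReal B := by
    intro ν hν
    rw [← lintegral_add_left hkc2.measurable]
    have : ∀ p : Q × Q, k ((p.1 : ℂ), (p.2 : ℂ)) + g ((p.1 : ℂ), (p.2 : ℂ)) =
        ENNReal.ofReal B := by
      intro p
      rw [hk, hg, ← ENNReal.ofReal_add (sub_nonneg.2 (hB _ p.1.2 _ p.2.2))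
        (Real.rpow_nonneg dist_nonneg _)]
      congr 1
      ring
    simp only [this]
    simp
  have hEC : ∀ ν : Measure Q, IsProbabilityMeasure ν → EC s (ν.map Subtype.val) =
      ∫⁻ p : Q × Q, g ((p.1 : ℂ), (p.2 : ℂ)) ∂(ν.prod ν) := by
    intro ν hν
    rw [← map_energy hQm hgc ν]
    unfold EC
    simp only [hg]
  obtain ⟨c, hc⟩ : ∃ c : ℕ → ℝ≥0∞, ∀ j, c j = ENNReal.ofReal (t - 1 / ((j : ℝ) + 1)) :=
    ⟨_, fun _ => rfl⟩
  have hcmono : ∀ j, c j ≤ c (j + 1) := by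
    intro j
    rw [hc, hc]
    apply ENNReal.ofReal_le_ofReal
    push_cast
    have : 1 / ((j : ℝ) + 1 + 1) ≤ 1 / ((j : ℝ) + 1) := by
      apply one_div_le_one_div_of_le
      · positivity
      · linarith
    linarith
  have hsub : ∀ j : ℕ, Metric.cthickening (1 / ((j : ℝ) + 1)) K ⊆ Q := by
    intro j
    apply Metric.cthickening_mono
    rw [div_le_one (by positivity)]
    have : (0 : ℝ) ≤ j := Nat.cast_nonneg j
    linarith
  let M : ℕ → Set (ProbabilityMeasure Q) := fun j =>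
    {ν | ∫⁻ p, k ((p.1 : ℂ), (p.2 : ℂ)) ∂((ν : Measure Q).prod (ν : Measure Q)) ≤
      ENNReal.ofReal B - c j} ∩
    {ν | ∫⁻ p, ENNReal.ofReal (Metric.infDist (p.1 : ℂ) K) ∂((ν : Measure Q).prod (ν : Measure Q))
      ≤ ENNReal.ofReal (1 / ((j : ℝ) + 1))}
  have hM : ∀ j, IsClosed (M j) := fun j =>
    (hl1.isClosed_preimage _).inter (hl2.isClosed_preimage _)
  have hanti : ∀ j, M (j + 1) ⊆ M j := by
    intro j ν hν
    refine ⟨le_trans hν.1 (tsub_le_tsub_left (hcmono j) _),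
      hν.2.trans (ENNReal.ofReal_le_ofReal ?_)⟩
    push_cast
    apply one_div_le_one_div_of_le
    · positivity
    · linarith
  have hdist : ∀ ν : ProbabilityMeasure Q,
      ∫⁻ p, ENNReal.ofReal (Metric.infDist (p.1 : ℂ) K) ∂((ν : Measure Q).prod (ν : Measure Q))
      = ∫⁻ x : Q, ENNReal.ofReal (Metric.infDist (x : ℂ) K) ∂(ν : Measure Q) := by
    intro ν
    rw [lintegral_prod _ hd.measurable.aemeasurable]
    simp
  have hex : ∀ j : ℕ, ∃ ν : Measure Q, IsProbabilityMeasure ν ∧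
      ν.map Subtype.val (Metric.cthickening (1 / ((j : ℝ) + 1)) K)ᶜ = 0 ∧
      c j ≤ ∫⁻ p : Q × Q, g ((p.1 : ℂ), (p.2 : ℂ)) ∂(ν.prod ν) := by
    intro j
    obtain ⟨μ, h1, h2, h3⟩ := h (1 / ((j : ℝ) + 1)) (1 / ((j : ℝ) + 1)) (by positivity)
      (by positivity)
    have h2' : μ Qᶜ = 0 := measure_mono_null (compl_subset_compl.2 (hsub j)) h2
    obtain ⟨hprob, hmap⟩ := comap_prob hQm (h1.measure_univ) h2'
    refine ⟨μ.comap (Subtype.val : Q → ℂ), hprob, ?_, ?_⟩
    · rw [hmap]; exact h2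
    · rw [← hEC _ hprob, hmap, hc]
      exact h3
  have hcB : ∀ j, c j ≤ ENNReal.ofReal B := by
    intro j
    obtain ⟨ν, h1, -, h3⟩ := hex j
    refine h3.trans ?_
    rw [← hsum ν h1]
    exact le_add_self
  have hnon : ∀ j, (M j).Nonempty := by
    intro j
    obtain ⟨ν, hprob, h2, h3⟩ := hex j
    refine ⟨⟨ν, hprob⟩, ?_, ?_⟩
    · change ∫⁻ p : Q × Q, k ((p.1 : ℂ), (p.2 : ℂ)) ∂(ν.prod ν) ≤ ENNReal.ofReal B - c j
      have hfin : (∫⁻ p : Q × Q, g ((p.1 : ℂ), (p.2 : ℂ)) ∂(ν.prod ν)) ≠ ∞ := by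
        intro hh
        have := hsum ν hprob
        rw [hh, add_top] at this
        exact ENNReal.ofReal_ne_top this.symm
      have h4 : ∫⁻ p : Q × Q, k ((p.1 : ℂ), (p.2 : ℂ)) ∂(ν.prod ν) =
          ENNReal.ofReal B - ∫⁻ p : Q × Q, g ((p.1 : ℂ), (p.2 : ℂ)) ∂(ν.prod ν) := by
        rw [← hsum ν hprob, ENNReal.add_sub_cancel_right hfin]
      rw [h4]
      exact tsub_le_tsub_left h3 _
    · change ∫⁻ p, ENNReal.ofReal (Metric.infDist (p.1 : ℂ) K) ∂(ν.prod ν)
          ≤ ENNReal.ofReal (1 / ((j : ℝ) + 1))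
      have hdd : ∫⁻ p, ENNReal.ofReal (Metric.infDist (p.1 : ℂ) K) ∂(ν.prod ν)
          = ∫⁻ x : Q, ENNReal.ofReal (Metric.infDist (x : ℂ) K) ∂ν :=
        hdist (⟨ν, hprob⟩ : ProbabilityMeasure Q)
      rw [hdd]
      have hae : ∀ᵐ x : Q ∂ν,
          ENNReal.ofReal (Metric.infDist (x : ℂ) K) ≤ ENNReal.ofReal (1 / ((j : ℝ) + 1)) := by
        have hμ : ∀ᵐ x ∂(ν.map Subtype.val), x ∈ Metric.cthickening (1 / ((j : ℝ) + 1)) K := by
          rw [ae_iff]; exact h2
        have := (hemb.ae_map_iff).1 hμ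
        filter_upwards [this] with x hx
        apply ENNReal.ofReal_le_ofReal
        have hx' := (Metric.mem_cthickening_iff).1 hx
        rw [Metric.infDist]
        exact ENNReal.toReal_le_of_le_ofReal (by positivity) hx'
      calc ∫⁻ x : Q, ENNReal.ofReal (Metric.infDist (x : ℂ) K) ∂ν
          ≤ ∫⁻ _ : Q, ENNReal.ofReal (1 / ((j : ℝ) + 1)) ∂ν :=
            lintegral_mono_ae hae
        _ = ENNReal.ofReal (1 / ((j : ℝ) + 1)) := by simp
  obtain ⟨ν, hν⟩ := IsCompact.nonempty_iInter_of_sequence_nonempty_isCompact_isClosed M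
    hanti hnon (hM 0).isCompact hM
  rw [mem_iInter] at hν
  have hprob : IsProbabilityMeasure (ν : Measure Q) := inferInstance
  refine ⟨(ν : Measure Q).map Subtype.val, ?_, ?_, ?_⟩
  · refine ⟨?_⟩
    rw [hemb.map_apply]; simp
  · have hzero : ∫⁻ x : Q, ENNReal.ofReal (Metric.infDist (x : ℂ) K) ∂(ν : Measure Q) = 0 := by
      rw [← nonpos_iff_eq_zero]
      have hb : ∀ j : ℕ, ∫⁻ x : Q, ENNReal.ofReal (Metric.infDist (x : ℂ) K) ∂(ν : Measure Q)
          ≤ ENNReal.ofReal (1 / ((j : ℝ) + 1)) := by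
        intro j
        rw [← hdist]
        exact (hν j).2
      have hlim : Tendsto (fun j : ℕ => ENNReal.ofReal (1 / ((j : ℝ) + 1))) atTop (𝓝 0) := by
        rw [← ENNReal.ofReal_zero]
        exact (ENNReal.continuous_ofReal.tendsto 0).comp tendsto_one_div_add_atTop_nhds_zero_nat
      exact ge_of_tendsto' hlim hb
    have hmeas : Measurable (fun x : Q => ENNReal.ofReal (Metric.infDist (x : ℂ) K)) :=
      (hdc.comp continuous_subtype_val).measurable
    rw [lintegral_eq_zero_iff hmeas] at hzero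
    suffices hae : ∀ᵐ x ∂((ν : Measure Q).map Subtype.val), x ∈ K by
      rw [ae_iff] at hae
      exact hae
    rw [hemb.ae_map_iff]
    filter_upwards [hzero] with x hx
    simp only [Pi.zero_apply, ENNReal.ofReal_eq_zero] at hx
    have h0 : Metric.infDist (x : ℂ) K = 0 := le_antisymm hx Metric.infDist_nonneg
    exact (hK.isClosed.mem_iff_infDist_zero hne).2 h0
  · rw [hEC _ hprob]
    have hj : ∀ j : ℕ, c j ≤
        ∫⁻ p : Q × Q, g ((p.1 : ℂ), (p.2 : ℂ)) ∂((ν : Measure Q).prod (ν : Measure Q)) := by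
      intro j
      have h1 : ∫⁻ p : Q × Q, k ((p.1 : ℂ), (p.2 : ℂ)) ∂((ν : Measure Q).prod (ν : Measure Q)) ≤
        ENNReal.ofReal B - c j := (hν j).1
      have hkfin : (∫⁻ p : Q × Q, k ((p.1 : ℂ), (p.2 : ℂ))
          ∂((ν : Measure Q).prod (ν : Measure Q))) ≠ ∞ := by
        intro hh
        have := hsum ν hprob
        rw [hh, top_add] at this
        exact ENNReal.ofReal_ne_top this.symm
      have h4 : ∫⁻ p : Q × Q, g ((p.1 : ℂ), (p.2 : ℂ)) ∂((ν : Measure Q).prod (ν : Measure Q)) =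
          ENNReal.ofReal B - ∫⁻ p : Q × Q, k ((p.1 : ℂ), (p.2 : ℂ))
            ∂((ν : Measure Q).prod (ν : Measure Q)) := by
        rw [← hsum ν hprob, ENNReal.add_sub_cancel_left hkfin]
      rw [h4]
      calc c j = ENNReal.ofReal B - (ENNReal.ofReal B - c j) :=
            (ENNReal.sub_sub_cancel ENNReal.ofReal_ne_top (hcB j)).symm
        _ ≤ _ := tsub_le_tsub_left h1 _
    have hlim : Tendsto c atTop (𝓝 (ENNReal.ofReal t)) := by
      rw [show c = fun j : ℕ => ENNReal.ofReal (t - 1 / ((j : ℝ) + 1)) from funext hc]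
      refine (ENNReal.continuous_ofReal.tendsto t).comp ?_
      have := (tendsto_const_nhds (x := t)).sub
        (tendsto_one_div_add_atTop_nhds_zero_nat (𝕜 := ℝ))
      rwa [sub_zero] at this
    exact le_of_tendsto' hlim hj

end Pool.Agent.W174.RR
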