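import Pool.Agent.W784.RR.DefsA

set_option autoImplicit false
open MeasureTheory Set Filter Topology Polynomial
open scoped ENNReal NNReal

namespace Pool.Agent.W174.RR

open Pool.Agent.W784.RR

/-- sum of point masses -/
noncomputable def pm (m : Multiset ℂ) : Measure ℂ := (m.map Measure.dirac).sum

theorem pm_lint (m : Multiset ℂ) (f : ℂ → ℝ≥0∞) : ∫⁻ x, f x ∂(pm m) = (m.map f).sum := by
  unfold pm
  induction m using Multiset.induction with
  | empty => simp
  | cons a m ih =>
    rw [Multiset.map_cons, Multiset.sum_cons, lintegral_add_measure, lintegral_dirac, ih,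
      Multiset.map_cons, Multiset.sum_cons]

theorem pm_univ (m : Multiset ℂ) : pm m univ = m.card := by
  rw [← lintegral_one, pm_lint]
  simp

theorem pm_null (m : Multiset ℂ) (S : Set ℂ) (hS : MeasurableSet S) (h : ∀ a ∈ m, a ∉ S) :
    pm m S = 0 := by
  rw [← lintegral_indicator_one hS, pm_lint]
  apply Multiset.sum_eq_zero
  intro x hx
  rw [Multiset.mem_map] at hx
  obtain ⟨a, ha, rfl⟩ := hx
  exact indicator_of_notMem (h a ha) _

theorem ofReal_msum (m : Multiset ℂ) (f : ℂ → ℝ) (hf : ∀ x, 0 ≤ f x) :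
    ENNReal.ofReal ((m.map f).sum) = (m.map (fun x => ENNReal.ofReal (f x))).sum := by
  induction m using Multiset.induction with
  | empty => simp
  | cons a m ih =>
    rw [Multiset.map_cons, Multiset.sum_cons, Multiset.map_cons, Multiset.sum_cons,
      ENNReal.ofReal_add (hf a), ih]
    apply Multiset.sum_nonneg
    intro x hx
    rw [Multiset.mem_map] at hx
    obtain ⟨a, _, rfl⟩ := hx
    exact hf a

theorem EC_pm (s : ℝ) (P : ℂ[X]) : EC s (pm P.roots) = ENNReal.ofReal (rootSum P s) := by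
  unfold EC rootSum
  rw [pm_lint]
  have h1 : ((P.roots.product P.roots).map (fun z : ℂ × ℂ => ‖z.1 - z.2‖ ^ s)).sum =
      (P.roots.map (fun a => (P.roots.map (fun b => ‖a - b‖ ^ s)).sum)).sum := by
    unfold Multiset.product
    rw [Multiset.map_bind, Multiset.sum_bind]
    simp only [Multiset.map_map, Function.comp_def]
  rw [h1, ofReal_msum]
  · congr 1
    refine Multiset.map_congr rfl fun a _ => ?_
    rw [pm_lint, ofReal_msum]
    · simp only [dist_eq_norm]
    · intro x; positivity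
  · intro x
    apply Multiset.sum_nonneg
    intro y hy
    rw [Multiset.mem_map] at hy
    obtain ⟨a, _, rfl⟩ := hy
    positivity

theorem exists_mu (h1 : PA1) (h2 : PA2) {K : Set ℂ} {c : ℝ} (hK : IsCompact K) (hc : 0 < c)
    (hch : Cheb K c) {s ρ : ℝ} (hs : 0 < s) (hρ : 0 < ρ) {L : ℕ} (hL : 2 ≤ L) :
    ∃ μ : Measure ℂ, IsProbabilityMeasure μ ∧ μ (Metric.cthickening ρ K)ᶜ = 0 ∧
      ENNReal.ofReal ((c ^ (L - 1) * ρ / L) ^ (s / L) * csL s L - 1 / (L : ℝ) ^ 2) ≤ EC s μ := by
  obtain ⟨P, hP, hdeg, hin⟩ := h2 K c hK hc hch ρ L hρ hL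
  have hL0 : (0:ℝ) < L := by exact_mod_cast (by omega : 0 < L)
  obtain ⟨ζ, hζ, hζ2⟩ := h1 P hP (by omega) (c ^ (L - 1) * ρ / L) s 1 (by positivity) hs one_pos
  rw [hdeg] at hζ2
  set R := P - C ζ with hR
  have hcard : R.roots.card = L := by
    rw [IsAlgClosed.card_roots_eq_natDegree, hR, natDegree_sub_C, hdeg]
  have hcardE : ((L : ℝ≥0∞))⁻¹ * (L : ℝ≥0∞) = 1 :=
    ENNReal.inv_mul_cancel (by exact_mod_cast (by omega : L ≠ 0)) (ENNReal.natCast_ne_top L)
  refine ⟨(L : ℝ≥0∞)⁻¹ • pm R.roots, ⟨?_⟩, ?_, ?_⟩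
  · rw [Measure.smul_apply, pm_univ, hcard, smul_eq_mul, hcardE]
  · rw [Measure.smul_apply, pm_null, smul_zero]
    · exact (Metric.isClosed_cthickening).measurableSet.compl
    · intro a ha
      simp only [mem_compl_iff, not_not]
      apply hin
      have hroot : R.eval a = 0 := (Polynomial.isRoot_of_mem_roots ha)
      rw [hR, eval_sub, eval_C, sub_eq_zero] at hroot
      rw [hroot, hζ]
  · have hE : EC s ((L : ℝ≥0∞)⁻¹ • pm R.roots) = (L : ℝ≥0∞)⁻¹ * ((L : ℝ≥0∞)⁻¹ *
        ENNReal.ofReal (rootSum R s)) := by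
      rw [← EC_pm]
      unfold EC
      simp only [lintegral_smul_measure, smul_eq_mul]
      congr 1
      rw [lintegral_const_mul' _ _ (by simp; omega)]
    rw [hE]
    have hinv : (L : ℝ≥0∞)⁻¹ = ENNReal.ofReal ((L : ℝ)⁻¹) := by
      rw [ENNReal.ofReal_inv_of_pos hL0, ENNReal.ofReal_natCast]
    rw [hinv, ← ENNReal.ofReal_mul (by positivity), ← ENNReal.ofReal_mul (by positivity)]
    apply ENNReal.ofReal_le_ofReal
    have h3 : (c ^ (L - 1) * ρ / L) ^ (s / L) * csL s L - 1 / (L : ℝ) ^ 2 =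
        ((L : ℝ)⁻¹ * ((L : ℝ)⁻¹ * ((c ^ (L - 1) * ρ / L) ^ (s / L) * (L : ℝ) ^ 2 * csL s L - 1))) := by
      field_simp
    rw [h3]
    gcongr

theorem riemann {f : ℝ → ℝ} (hf : Continuous f) :
    Tendsto (fun L : ℕ => (∑ j ∈ Finset.range L, f (j / L)) / L) atTop
      (𝓝 (∫ x in (0:ℝ)..1, f x)) := by
  rw [Metric.tendsto_atTop]
  intro ε hε
  have huc := (isCompact_Icc (a := (0:ℝ)) (b := 1)).uniformContinuousOn_of_continuous
    hf.continuousOn
  rw [Metric.uniformContinuousOn_iff] at huc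
  obtain ⟨δ, hδ, hδ2⟩ := huc (ε / 2) (by positivity)
  obtain ⟨N, hN⟩ := exists_nat_gt (1 / δ)
  refine ⟨N + 1, fun L hL => ?_⟩
  have hLpos : (0:ℝ) < L := by exact_mod_cast (by omega : 0 < L)
  have hLd : 1 / (L:ℝ) < δ := by
    have : (N:ℝ) < L := by exact_mod_cast (by omega : N < L)
    rw [div_lt_iff₀ hLpos]
    rw [div_lt_iff₀ hδ] at hN
    nlinarith
  obtain ⟨a, ha⟩ : ∃ a : ℕ → ℝ, ∀ j, a j = (j:ℝ) / L := ⟨_, fun _ => rfl⟩
  have hsum : ∑ j ∈ Finset.range L, ∫ x in (a j)..(a (j + 1)), f x = ∫ x in (0:ℝ)..1, f x := by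
    rw [intervalIntegral.sum_integral_adjacent_intervals]
    · rw [ha, ha]
      simp only [Nat.cast_zero, zero_div]
      rw [div_self hLpos.ne']
    · intro k _
      exact hf.intervalIntegrable _ _
  have hdiff : ∀ j, a (j + 1) - a j = 1 / L := by
    intro j
    rw [ha, ha]
    push_cast
    ring
  have hconst : ∀ j, ∫ _x in (a j)..(a (j + 1)), f (a j) = f (a j) / L := by
    intro j
    rw [intervalIntegral.integral_const, hdiff, smul_eq_mul]
    ring
  have hS : (∑ j ∈ Finset.range L, f (j / L)) / L =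
      ∑ j ∈ Finset.range L, ∫ _x in (a j)..(a (j + 1)), f (a j) := by
    rw [Finset.sum_div]
    refine Finset.sum_congr rfl fun j _ => ?_
    rw [hconst, ha]
  rw [hS, ← hsum, dist_eq_norm, ← Finset.sum_sub_distrib]
  calc ‖∑ j ∈ Finset.range L, ((∫ _x in (a j)..(a (j + 1)), f (a j)) -
        ∫ x in (a j)..(a (j + 1)), f x)‖
      ≤ ∑ j ∈ Finset.range L, ‖(∫ _x in (a j)..(a (j + 1)), f (a j)) -
        ∫ x in (a j)..(a (j + 1)), f x‖ := norm_sum_le _ _
    _ ≤ ∑ j ∈ Finset.range L, ε / 2 * (1 / L) := by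
        refine Finset.sum_le_sum fun j hj => ?_
        rw [Finset.mem_range] at hj
        rw [← intervalIntegral.integral_sub (by simp) (hf.intervalIntegrable _ _)]
        have h1 : ‖∫ x in (a j)..(a (j + 1)), (f (a j) - f x)‖ ≤
            ε / 2 * |a (j + 1) - a j| := by
          apply intervalIntegral.norm_integral_le_of_norm_le_const
          intro x hx
          have hle : a j ≤ a (j + 1) := by
            have := hdiff j
            have : 0 < 1 / (L:ℝ) := by positivity
            linarith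
          rw [uIoc_of_le hle] at hx
          have ha0 : 0 ≤ a j := by rw [ha]; positivity
          have ha1 : a (j + 1) ≤ 1 := by
            rw [ha, div_le_one hLpos]
            exact_mod_cast hj
          have h3 := hδ2 (a j) ⟨ha0, by linarith⟩ x ⟨by linarith [hx.1], by linarith [hx.2]⟩
            (by
              rw [Real.dist_eq, abs_sub_lt_iff]
              have := hdiff j
              constructor <;> linarith [hx.1, hx.2])
          rw [Real.dist_eq] at h3
          exact h3.le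
        rw [hdiff, abs_of_pos (by positivity)] at h1
        exact h1
    _ = ε / 2 := by
        rw [Finset.sum_const, Finset.card_range, nsmul_eq_mul]
        field_simp
    _ < ε := by linarith

theorem csL_tendsto {s : ℝ} (hs : 0 < s) :
    Tendsto (fun L : ℕ => csL s L) atTop (𝓝 (cs s)) := by
  have hf : Continuous (fun x : ℝ => ‖1 - Complex.exp (2 * Real.pi * x * Complex.I)‖ ^ s) := by
    refine Continuous.rpow_const ?_ fun _ => Or.inr hs.le
    fun_prop
  have h := riemann hf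
  have h1 : ∫ x in (0:ℝ)..1, ‖1 - Complex.exp (2 * Real.pi * x * Complex.I)‖ ^ s = cs s := by
    unfold cs
    have h2 := intervalIntegral.integral_comp_mul_left (a := 0) (b := 1)
      (fun α : ℝ => ‖1 - Complex.exp (α * Complex.I)‖ ^ s) (c := 2 * Real.pi) (by positivity)
    rw [mul_zero, mul_one, smul_eq_mul] at h2
    rw [div_eq_inv_mul, ← h2]
    refine intervalIntegral.integral_congr fun x _ => ?_
    push_cast
    rfl
  rw [h1] at h
  refine h.congr fun L => ?_
  unfold csL
  congr 1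
  refine Finset.sum_congr rfl fun j _ => ?_
  congr 4
  push_cast
  ring

theorem rL_tendsto {c ρ s : ℝ} (hc : 0 < c) (hρ : 0 < ρ) :
    Tendsto (fun L : ℕ => (c ^ (L - 1) * ρ / L) ^ (s / L)) atTop (𝓝 (c ^ s)) := by
  have hlogL : Tendsto (fun L : ℕ => Real.log L / L) atTop (𝓝 0) := by
    have := (Real.tendsto_pow_log_div_mul_add_atTop 1 0 1 one_ne_zero).comp
      (tendsto_natCast_atTop_atTop (R := ℝ))
    refine this.congr fun L => ?_
    simp
  have hinv : Tendsto (fun L : ℕ => 1 / (L : ℝ)) atTop (𝓝 0) :=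
    tendsto_one_div_atTop_nhds_zero_nat
  have hE : Tendsto (fun L : ℕ => s * ((1 - 1 / (L : ℝ)) * Real.log c + Real.log ρ * (1 / (L : ℝ))
      - Real.log L / L)) atTop (𝓝 (s * ((1 - 0) * Real.log c + Real.log ρ * 0 - 0))) :=
    tendsto_const_nhds.mul ((((tendsto_const_nhds.sub hinv).mul tendsto_const_nhds).add
      (tendsto_const_nhds.mul hinv)).sub hlogL)
  have hE2 := (Real.continuous_exp.tendsto _).comp hE
  have h0 : Real.exp (s * ((1 - 0) * Real.log c + Real.log ρ * 0 - 0)) = c ^ s := by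
    rw [Real.rpow_def_of_pos hc]
    congr 1
    ring
  rw [h0] at hE2
  refine hE2.congr' ?_
  filter_upwards [eventually_ge_atTop 1] with L hL
  have hLpos : (0:ℝ) < L := by exact_mod_cast (by omega : 0 < L)
  have hr : 0 < c ^ (L - 1) * ρ / L := by positivity
  simp only [Function.comp]
  rw [Real.rpow_def_of_pos hr, Real.log_div (by positivity) hLpos.ne',
    Real.log_mul (by positivity) hρ.ne', Real.log_pow]
  congr 1
  rw [Nat.cast_sub hL]
  push_cast
  field_simp

theorem pa3 (h1 : PA1) (h2 : PA2) : PA3 := by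
  intro K c hK hc hch s ρ δ hs hρ hδ
  have hlim : Tendsto (fun L : ℕ => (c ^ (L - 1) * ρ / L) ^ (s / L) * csL s L -
      (1 / (L : ℝ)) ^ 2) atTop (𝓝 (c ^ s * cs s - 0 ^ 2)) :=
    ((rL_tendsto hc hρ).mul (csL_tendsto hs)).sub
      ((tendsto_one_div_atTop_nhds_zero_nat (𝕜 := ℝ)).pow 2)
  have hev := hlim.eventually (lt_mem_nhds (show c ^ s * cs s - δ < c ^ s * cs s - 0 ^ 2 by
    simp; exact hδ))
  obtain ⟨L, hL1, hL2⟩ := (hev.and (eventually_ge_atTop 2)).exists
  obtain ⟨μ, hμ, hμ2, hμ3⟩ := exists_mu h1 h2 hK hc hch hs hρ hL2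
  refine ⟨μ, hμ, hμ2, le_trans (ENNReal.ofReal_le_ofReal ?_) hμ3⟩
  rw [← one_div_pow]
  exact hL1.le

end Pool.Agent.W174.RR
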